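import Pool.Agent.R313.QM.KD

set_option autoImplicit false

/-!
# MP_ea46f5_nt: moments of quadratic Dirichlet L-functions of every order, averaged over the shift

Let `ψ` be smooth with compact support, vanishing above `θ ≥ 0`, and let `φ(α) = ∫ ψ(v) e^{ivα} dv`. For every `k`, each sign
and every `η > 0`
`∑_{D ∈ S_±(X)} ∫ φ(α) L(1/2 + iα/log X, χ_D)^k dα = (6/π) X ∑_m d_k(m²) / m ∏_{p | m} p/(p+1) ψ(2 log m / log X)`
`+ O(X^(1/2 + 3θ/4 + η))`, which is an asymptotic formula with a power saving for `θ < 2/3`. Here `S_±(X)` is the set of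
the fundamental discriminants `D ≠ 1` with the given sign and `|D| < X`. For `k ≥ 1` and `θ < 2/3` it follows that the sum
is `(6/π) a_k X (log X)^K (∫_0^∞ u^(K-1)/(K-1)! ψ(2u) du + o(1))`, `K = k(k+1)/2`, with the constant `a_k` of the problem.
-/

namespace Pool.Agent.Results.MP_ea46f5_nt.ShiftAverages

open MeasureTheory Filter Topology
open scoped ContDiff

/-- `D` is a fundamental discriminant -/
def IsFund (D : ℤ) : Prop :=
  (D % 4 = 1 ∧ Squarefree D) ∨ ∃ m : ℤ, D = 4 * m ∧ (m % 4 = 2 ∨ m % 4 = 3) ∧ Squarefree m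

/-- the Kronecker symbol `χ_D(n) = (D / n)` of a fundamental discriminant, for `n ≥ 1`: the value at `2` is `1` for
`D ≡ 1 mod 8`, `-1` for `D ≡ 5 mod 8` and `0` for even `D`, the rest is the Jacobi symbol -/
def chi (D : ℤ) (n : ℕ) : ℤ :=
  (if D % 8 = 1 then 1 else if D % 8 = 5 then -1 else 0) ^ (n.factorization 2) *
    jacobiSym D (n / 2 ^ (n.factorization 2))

/-- the L-function `L(s, χ_D)`: the analytic continuation of the Dirichlet series of the function `χ_D`, of period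
`|D|` (each residue class modulo `|D|` is represented by a number between `|D|` and `2|D| - 1`) -/
noncomputable def L (D : ℤ) (s : ℂ) : ℂ :=
  if h : D.natAbs ≠ 0 then
    (haveI : NeZero D.natAbs := ⟨h⟩
     ZMod.LFunction (fun a : ZMod D.natAbs => (chi D (a.val + D.natAbs) : ℂ)) s)
  else 0

open Classical in
/-- the fundamental discriminants `D ≠ 1` with `|D| < X`, positive for `ε = 1`, negative for `ε = -1` -/
noncomputable def S (ε : ℤ) (X : ℝ) : Finset ℤ :=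
  ((Finset.Ioo (-⌈X⌉) ⌈X⌉).filter (fun D => IsFund D ∧ 0 < ε * D)).erase 1

/-- `d_k(n)`, the number of ordered factorisations of `n` into `k` factors -/
def dk (k n : ℕ) : ℕ := (Nat.finMulAntidiag k n).card

/-- the constant `a_k = A_k(0, …, 0)` of the problem, with `K = k(k+1)/2`:
`∏_p (1 - 1/p)^K (((1 - p^(-1/2))^(-k) + (1 + p^(-1/2))^(-k)) / 2 + 1/p) / (1 + 1/p)` -/
noncomputable def ak (k : ℕ) : ℝ :=
  ∏' p : Nat.Primes, (1 - 1 / ((p : ℕ) : ℝ)) ^ (k * (k + 1) / 2) *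
    ((((1 - 1 / Real.sqrt (p : ℕ)) ^ k)⁻¹ + ((1 + 1 / Real.sqrt (p : ℕ)) ^ k)⁻¹) / 2 + 1 / ((p : ℕ) : ℝ)) / (1 + 1 / ((p : ℕ) : ℝ))

/-- `φ(α) = ∫ ψ(v) e^{ivα} dv` -/
noncomputable def phi (ψ : ℝ → ℂ) (α : ℝ) : ℂ := ∫ v : ℝ, ψ v * Complex.exp (Complex.I * v * α)

lemma phi_eq (ψ : ℝ → ℂ) (α : ℝ) : phi ψ α = W182.KO.P ψ (α * Complex.I) := by
  unfold phi W182.KO.P
  congr 1; funext ξ
  congr 2
  ring

lemma L_eq (D : ℤ) (s : ℂ) : L D s = R313.QM.LD D s := rfl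

lemma S_eq (ε : ℤ) (X : ℝ) : S ε X = R313.QM.SX ε X := rfl

lemma chi_eq (D : ℤ) (n : ℕ) : chi D n = R313.QM.kron D n := rfl

theorem result (ε : ℤ) (hε : ε = 1 ∨ ε = -1) (k : ℕ) (θ η : ℝ) (hθ : 0 ≤ θ) (hη : 0 < η) (ψ : ℝ → ℂ)
    (hψ : ContDiff ℝ ∞ ψ) (hc : HasCompactSupport ψ) (hs : ∀ v : ℝ, θ < v → ψ v = 0) :
    -- `χ_D` is a nontrivial Dirichlet character modulo `|D|`, with the L-function `L D`
    (∀ D : ℤ, IsFund D → D ≠ 1 → ∃ (_ : NeZero D.natAbs) (χ : DirichletCharacter ℂ D.natAbs), χ ≠ 1 ∧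
      (∀ n : ℕ, n ≠ 0 → χ (n : ZMod D.natAbs) = (chi D n : ℂ)) ∧ ∀ s, L D s = DirichletCharacter.LFunction χ s) ∧
    (∀ X : ℝ, Real.exp 1 ≤ X → ∀ D ∈ S ε X,
      Integrable fun α : ℝ => phi ψ α * L D (1 / 2 + Complex.I * α / Real.log X) ^ k) ∧
    (∃ C : ℝ, ∀ X : ℝ, Real.exp 1 ≤ X →
      ‖(∑ D ∈ S ε X, ∫ α : ℝ, phi ψ α * L D (1 / 2 + Complex.I * α / Real.log X) ^ k) -
        6 / Real.pi * X * ∑' m : ℕ, (dk k (m ^ 2) : ℂ) / m * (∏ p ∈ m.primeFactors, (p : ℂ) / (p + 1)) *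
          ψ (2 * Real.log m / Real.log X)‖ ≤ C * X ^ (1 / 2 + 3 / 4 * θ + η)) ∧
    (k ≠ 0 → θ < 2 / 3 →
      Tendsto (fun X : ℝ => (∑ D ∈ S ε X, ∫ α : ℝ, phi ψ α * L D (1 / 2 + Complex.I * α / Real.log X) ^ k) /
          (X * (Real.log X : ℂ) ^ (k * (k + 1) / 2))) atTop
        (𝓝 (6 / Real.pi * (ak k * ∫ u in Set.Ioi (0:ℝ),
          (u : ℂ) ^ (k * (k + 1) / 2 - 1) / ((k * (k + 1) / 2 - 1).factorial : ℂ) * ψ (2 * u))))) := by
  have hTF : W182.KO.TF θ ψ := ⟨hψ, hc, hs⟩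
  -- change of variables
  have key : ∀ X : ℝ, Real.exp 1 ≤ X → ∀ D ∈ S ε X,
      Integrable (fun α : ℝ => phi ψ α * L D (1 / 2 + Complex.I * α / Real.log X) ^ k) ∧
      ∫ α : ℝ, phi ψ α * L D (1 / 2 + Complex.I * α / Real.log X) ^ k =
        (Real.log X : ℂ) * ∫ y : ℝ, W182.KO.P ψ (Real.log X * y * Complex.I) * R313.QM.LD D (1 / 2 + y * Complex.I) ^ k := by
    intro X hX D hD
    have hX0 : 0 < X := (Real.exp_pos 1).trans_le hX
    have hL : 1 ≤ Real.log X := by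
      rw [Real.le_log_iff_exp_le hX0]; exact hX
    obtain ⟨l, hl⟩ : ∃ l, l = Real.log X := ⟨_, rfl⟩
    rw [← hl] at hL ⊢
    have hl0 : 0 < l := by linarith
    have hlc : (l : ℂ) ≠ 0 := by exact_mod_cast hl0.ne'
    have hpt : ∀ y : ℝ, phi ψ (l * y) * L D (1 / 2 + Complex.I * ((l * y : ℝ) : ℂ) / l) ^ k =
        W182.KO.P ψ (l * y * Complex.I) * R313.QM.LD D (1 / 2 + y * Complex.I) ^ k := by
      intro y
      rw [phi_eq, L_eq]
      have e1 : (1 / 2 + Complex.I * ((l * y : ℝ) : ℂ) / l : ℂ) = 1 / 2 + y * Complex.I := by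
        push_cast
        field_simp
      rw [e1]
      push_cast
      rfl
    obtain ⟨h1, h2⟩ := R313.QM.mem_SX hD
    have i1 := (R313.QM.exact_D hTF h1 h2 k hL).1
    refine ⟨?_, ?_⟩
    · have i4 : Integrable fun y : ℝ => phi ψ (l * y) * L D (1 / 2 + Complex.I * ((l * y : ℝ) : ℂ) / l) ^ k := by
        rw [funext hpt]
        exact i1
      have i5 := i4.comp_mul_left' (inv_ne_zero hl0.ne')
      refine i5.congr (Filter.Eventually.of_forall fun α => ?_)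
      show phi ψ (l * (l⁻¹ * α)) * L D (1 / 2 + Complex.I * ((l * (l⁻¹ * α) : ℝ) : ℂ) / l) ^ k = _
      rw [← mul_assoc, mul_inv_cancel₀ hl0.ne', one_mul]
    · have h4 := Measure.integral_comp_mul_left (fun α : ℝ => phi ψ α * L D (1 / 2 + Complex.I * α / l) ^ k) l
      rw [abs_of_pos (by positivity)] at h4
      have h5 : ∫ y : ℝ, W182.KO.P ψ (l * y * Complex.I) * R313.QM.LD D (1 / 2 + y * Complex.I) ^ k =
          l⁻¹ • ∫ α : ℝ, phi ψ α * L D (1 / 2 + Complex.I * α / l) ^ k := by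
        rw [← h4]
        exact integral_congr_ae (Filter.Eventually.of_forall fun y => (hpt y).symm)
      rw [h5, Complex.real_smul, ← mul_assoc, ← Complex.ofReal_mul, mul_inv_cancel₀ hl0.ne', Complex.ofReal_one, one_mul]
  refine ⟨fun D hD h1 => ?_, fun X hX D hD => (key X hX D hD).1, ?_, fun hk hθ2 => ?_⟩
  · obtain ⟨hne, χ, h2, h3⟩ := R313.QM.char_exists hD h1
    exact ⟨hne, χ, h2, h3, fun s => R313.QM.LD_eq χ h3 s⟩
  · obtain ⟨C, -, hC⟩ := R313.QM.explicit2 hTF hθ k hη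
    refine ⟨C, fun X hX => ?_⟩
    have h1 := hC ε hε X hX
    have e2 : 2 * Real.pi * R313.QM.MT2 k ψ X = 6 / Real.pi * X * ∑' m : ℕ, (dk k (m ^ 2) : ℂ) / m *
        (∏ p ∈ m.primeFactors, (p : ℂ) / (p + 1)) * ψ (2 * Real.log m / Real.log X) := by
      unfold R313.QM.MT2
      rw [← tsum_mul_left, ← tsum_mul_left]
      refine tsum_congr fun m => ?_
      have hpi : (Real.pi : ℂ) ≠ 0 := by exact_mod_cast Real.pi_ne_zero
      have e3 : dk k (m ^ 2) = W182.KO.dk k (m ^ 2) := rfl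
      rw [e3]
      push_cast
      field_simp
      ring
    rw [e2] at h1
    rw [Finset.mul_sum] at h1
    rw [Finset.sum_congr rfl fun D hD => (key X hX D hD).2]
    exact h1
  · have h1 := R313.QM.asymp hTF hθ hθ2 hk hε
    have hak : ak k = R313.QM.AK k := by
      have h2 := (R313.QM.AK_prod hk).tprod_eq
      rw [← h2]
      unfold ak
      exact tprod_congr fun p => (R313.QM.locf_eq hk p.2).symm
    rw [← hak, R313.QM.KK_eq] at h1
    refine h1.congr' ?_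
    filter_upwards [eventually_ge_atTop (Real.exp 1)] with X hX
    rw [Finset.mul_sum, S_eq, ← S_eq]
    rw [Finset.sum_congr rfl fun D hD => (key X hX D hD).2]

end Pool.Agent.Results.MP_ea46f5_nt.ShiftAverages
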